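import Mathlib

/-!
# Delta systems, free pairs and the graph-theoretic core
-/

set_option autoImplicit false

open Cardinal Set

universe u

namespace Pool.Agent.U491.Conn

/-- a finite union of small sets is small -/
lemma small_biUnion_finite {C : Type} {V : Type u} {κ : Cardinal.{0}} (hκ : ℵ₀ ≤ κ)
    {A : Set V} (hA : A.Finite) (T : V → Set C) (hT : ∀ v ∈ A, #(T v) < κ) :
    #(⋃ v ∈ A, T v : Set C) < κ := by
  induction A, hA using Set.Finite.induction_on with
  | empty => simpa using lt_of_lt_of_le aleph0_pos hκ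
  | @insert a s ha hs ih =>
    rw [Set.biUnion_insert]
    refine lt_of_le_of_lt (mk_union_le _ _) (add_lt_of_lt hκ (hT a (by simp)) (ih ?_))
    intro v hv
    exact hT v (by simp [hv])

/-- Delta system lemma for families of `n`-element sets. -/
theorem delta_card {C : Type} {V : Type u} {κ : Cardinal.{0}} (hκ : κ.IsRegular) (hκ0 : ℵ₀ < κ) :
    ∀ (n : ℕ) (X : C → Set V) (S : Set C), κ ≤ #S →
      (∀ c ∈ S, (X c).Finite ∧ (X c).ncard = n) →
      ∃ S' ⊆ S, κ ≤ #S' ∧ ∃ X0 : Set V, X0.Finite ∧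
        ∀ a ∈ S', ∀ b ∈ S', a ≠ b → X a ∩ X b = X0 := by
  intro n
  induction n with
  | zero =>
    intro X S hS hX
    refine ⟨S, subset_rfl, hS, ∅, Set.finite_empty, ?_⟩
    intro a ha b hb hab
    have := hX a ha
    rw [(Set.ncard_eq_zero this.1).1 this.2]
    simp
  | succ n ih =>
    intro X S hS hX
    by_cases hv : ∃ v, κ ≤ #{c | c ∈ S ∧ v ∈ X c}
    · obtain ⟨v, hv⟩ := hv
      obtain ⟨S', hS', hc, X0, hX0, h⟩ := ih (fun c => X c \ {v}) {c | c ∈ S ∧ v ∈ X c} hv (by
        intro c hc
        have h1 := hX c hc.1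
        refine ⟨h1.1.subset Set.diff_subset, ?_⟩
        have := Set.ncard_diff_singleton_add_one hc.2 h1.1
        omega)
      refine ⟨S', fun c hc => (hS' hc).1, hc, insert v X0, hX0.insert v, ?_⟩
      intro a ha b hb hab
      have h1 := h a ha b hb hab
      rw [← h1]
      ext x
      by_cases hx : x = v
      · subst hx
        simp [(hS' ha).2, (hS' hb).2]
      · simp [hx]
    · push Not at hv
      -- a maximal disjoint subfamily
      obtain ⟨D, hD⟩ := zorn_subset {D : Set C | D ⊆ S ∧ D.PairwiseDisjoint X} (by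
        intro c hc hchain
        refine ⟨⋃₀ c, ⟨Set.sUnion_subset fun s hs => (hc hs).1, ?_⟩,
          fun s hs => Set.subset_sUnion_of_mem hs⟩
        exact (Set.pairwiseDisjoint_sUnion hchain.directedOn).2 fun s hs => (hc hs).2)
      have hDS : D ⊆ S := hD.prop.1
      by_cases hDc : κ ≤ #D
      · refine ⟨D, hDS, hDc, ∅, Set.finite_empty, ?_⟩
        intro a ha b hb hab
        have := hD.prop.2 ha hb hab
        exact Set.disjoint_iff_inter_eq_empty.1 this
      · push Not at hDc
        exfalso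
        have hcov : S ⊆ D ∪ ⋃ c ∈ D, ⋃ v ∈ X c, {b | b ∈ S ∧ v ∈ X b} := by
          intro b hb
          by_cases hbD : b ∈ D
          · exact Or.inl hbD
          · right
            by_contra hcon
            have hins : insert b D ∈ {D : Set C | D ⊆ S ∧ D.PairwiseDisjoint X} := by
              refine ⟨Set.insert_subset hb hDS, ?_⟩
              refine hD.prop.2.insert ?_
              intro c hc hbc
              rw [Set.disjoint_left]
              intro x hxb hxc
              apply hcon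
              simp only [Set.mem_iUnion]
              exact ⟨c, hc, x, hxc, hb, hxb⟩
            have := hD.le_of_ge hins (Set.subset_insert b D)
            exact hbD (this (Set.mem_insert b D))
        have h1 : #S < κ := by
          refine lt_of_le_of_lt (mk_le_mk_of_subset hcov) ?_
          refine lt_of_le_of_lt (mk_union_le _ _) (add_lt_of_lt hκ.aleph0_le hDc ?_)
          rw [card_biUnion_lt_iff_forall_of_isRegular hκ hDc]
          intro c hc
          exact small_biUnion_finite hκ.aleph0_le (hX c (hDS hc)).1 _ (fun v _ => hv v)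
        exact absurd hS (not_le.2 h1)

/-- Delta system lemma for families of finite sets. -/
theorem delta_finite {C : Type} {V : Type u} {κ : Cardinal.{0}} (hκ : κ.IsRegular) (hκ0 : ℵ₀ < κ)
    (X : C → Set V) (hX : ∀ c, (X c).Finite) (S : Set C) (hS : κ ≤ #S) :
      ∃ S' ⊆ S, κ ≤ #S' ∧ ∃ X0 : Set V, X0.Finite ∧
        ∀ a ∈ S', ∀ b ∈ S', a ≠ b → X a ∩ X b = X0 := by
  have : ∃ n : ℕ, κ ≤ #{c | c ∈ S ∧ (X c).ncard = n} := by
    by_contra hcon
    push Not at hcon
    have hcov : S ⊆ ⋃ n : ℕ, {c | c ∈ S ∧ (X c).ncard = n} := by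
      intro c hc
      simp only [Set.mem_iUnion]
      exact ⟨_, hc, rfl⟩
    have h1 : #S < κ := by
      refine lt_of_le_of_lt (mk_le_mk_of_subset hcov) ?_
      rw [card_iUnion_lt_iff_forall_of_isRegular hκ (by simpa using hκ0)]
      exact hcon
    exact absurd hS (not_le.2 h1)
  obtain ⟨n, hn⟩ := this
  obtain ⟨S', h1, h2⟩ := delta_card hκ hκ0 n X _ hn (fun c hc => ⟨hX c, hc.2⟩)
  exact ⟨S', fun c hc => (h1 hc).1, h2⟩

/-- free pairs for set mappings with countable values -/
theorem free_pair {C : Type} (S : Set C) (hS : Order.succ ℵ₁ ≤ #S) (N : C → Set C)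
    (hN : ∀ a ∈ S, (N a).Countable) : ∃ a ∈ S, ∃ b ∈ S, a ≠ b ∧ a ∉ N b ∧ b ∉ N a := by
  have h1 : (ℵ₁ : Cardinal.{0}) ≤ #S := (Order.le_succ _).trans hS
  obtain ⟨W, hWS, hW⟩ := Cardinal.le_mk_iff_exists_subset.1 h1
  have hU : #(W ∪ ⋃ w ∈ W, N w : Set C) ≤ ℵ₁ := by
    refine (mk_union_le _ _).trans (add_le_of_le (aleph0_le_aleph 1) hW.le ?_)
    refine (mk_biUnion_le _ _).trans ?_
    have : (⨆ x : W, #(N x)) ≤ ℵ₁ := by
      refine ciSup_le' fun x => ?_
      have := (hN x (hWS x.2)).le_aleph0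
      exact this.trans (aleph0_le_aleph 1)
    calc #W * (⨆ x : W, #(N x)) ≤ ℵ₁ * ℵ₁ := mul_le_mul' hW.le this
      _ = ℵ₁ := mul_eq_self (aleph0_le_aleph 1)
  have : ¬ S ⊆ W ∪ ⋃ w ∈ W, N w := by
    intro h
    have := (hS.trans (mk_le_mk_of_subset h)).trans hU
    exact absurd this (not_le.2 (Order.lt_succ _))
  obtain ⟨b, hbS, hb⟩ := Set.not_subset.1 this
  simp only [Set.mem_union, Set.mem_iUnion, not_or, not_exists] at hb
  have h2 : ¬ W ⊆ N b := by
    intro h
    have := (mk_le_mk_of_subset h).trans (hN b hbS).le_aleph0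
    rw [hW] at this
    exact absurd this (not_le.2 aleph0_lt_aleph_one)
  obtain ⟨a, haW, ha⟩ := Set.not_subset.1 h2
  refine ⟨a, hWS haW, b, hbS, ?_, ha, hb.2 a haW⟩
  rintro rfl
  exact hb.1 haW

section Graph

variable {V : Type u} (G : SimpleGraph V)

/-- one step in `G` avoiding `A` -/
def Stp (A : Set V) (x y : V) : Prop := G.Adj x y ∧ x ∉ A ∧ y ∉ A

/-- the vertices connected in `G - A` to a tail of `r` -/
def M (r : ℕ → V) (A : Set V) : Set V :=
  {v | ∃ n0, ∀ n ≥ n0, Relation.ReflTransGen (Stp G A) v (r n)}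

variable {G}

lemma Stp.mono {A B : Set V} (h : A ⊆ B) {x y : V} (hs : Stp G B x y) : Stp G A x y :=
  ⟨hs.1, fun hx => hs.2.1 (h hx), fun hy => hs.2.2 (h hy)⟩

lemma Stp.symm {A : Set V} {x y : V} (hs : Stp G A x y) : Stp G A y x :=
  ⟨hs.1.symm, hs.2.2, hs.2.1⟩

lemma reach_symm {A : Set V} {x y : V} (h : Relation.ReflTransGen (Stp G A) x y) :
    Relation.ReflTransGen (Stp G A) y x := by
  induction h with
  | refl => exact Relation.ReflTransGen.refl
  | tail _ hs ih => exact Relation.ReflTransGen.head hs.symm ih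

lemma tail_reach {r : ℕ → V} (hadj : ∀ n, G.Adj (r n) (r (n + 1))) {A : Set V} {n0 : ℕ}
    (h : ∀ n ≥ n0, r n ∉ A) : ∀ n ≥ n0, Relation.ReflTransGen (Stp G A) (r n0) (r n) := by
  intro n hn
  induction n, hn using Nat.le_induction with
  | base => exact Relation.ReflTransGen.refl
  | succ n hn ih => exact ih.tail ⟨hadj n, h n hn, h (n + 1) (by omega)⟩

lemma tail_avoid {r : ℕ → V} (hr : Function.Injective r) {A : Set V} (hA : A.Finite) :
    ∃ n0, ∀ n ≥ n0, r n ∉ A := by
  have h1 : (r ⁻¹' A).Finite := hA.preimage hr.injOn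
  obtain ⟨N, hN⟩ := h1.bddAbove
  refine ⟨N + 1, fun n hn hnA => ?_⟩
  have := hN hnA
  omega

/-- the finite support of a chain -/
lemma support_of_reach {A : Set V} {x y : V} (h : Relation.ReflTransGen (Stp G A) x y) :
    ∃ L : Set V, L.Finite ∧ x ∈ L ∧
      ∀ P : Set V, Disjoint P L → Relation.ReflTransGen (Stp G (A ∪ P)) x y := by
  induction h using Relation.ReflTransGen.head_induction_on with
  | refl => exact ⟨{y}, Set.finite_singleton y, rfl, fun P _ => Relation.ReflTransGen.refl⟩
  | @head x z hs _ ih =>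
    obtain ⟨L, hL, hz, h⟩ := ih
    refine ⟨insert x L, hL.insert x, Set.mem_insert x L, fun P hP => ?_⟩
    rw [Set.disjoint_right] at hP
    refine Relation.ReflTransGen.head ⟨hs.1, ?_, ?_⟩ (h P ?_)
    · rintro (h1 | h1)
      · exact hs.2.1 h1
      · exact hP (Set.mem_insert x L) h1
    · rintro (h1 | h1)
      · exact hs.2.2 h1
      · exact hP (Set.mem_insert_of_mem x hz) h1
    · rw [Set.disjoint_right]
      intro u hu
      exact hP (Set.mem_insert_of_mem x hu)

/-- a countable set whose complement may be deleted -/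
lemma countable_support {r : ℕ → V} (hr : Function.Injective r)
    (hadj : ∀ n, G.Adj (r n) (r (n + 1))) {A : Set V} (hA : A.Finite) {v : V} (hv : v ∈ M G r A) :
    ∃ L : Set V, L.Countable ∧ ∀ P : Set V, Disjoint P L → v ∈ M G r (A ∪ P) := by
  obtain ⟨n1, h1⟩ := tail_avoid hr hA
  obtain ⟨n2, h2⟩ := hv
  obtain ⟨L, hL, _, hL2⟩ := support_of_reach (h2 (max n1 n2) (le_max_right _ _))
  refine ⟨L ∪ Set.range r, hL.countable.union (Set.countable_range r), fun P hP => ?_⟩
  rw [Set.disjoint_union_right] at hP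
  refine ⟨max n1 n2, fun n hn => (hL2 P hP.1).trans (tail_reach hadj ?_ n hn)⟩
  intro m hm
  rintro (h | h)
  · exact h1 m ((le_max_left _ _).trans hm) h
  · exact Set.disjoint_right.1 hP.2 (Set.mem_range_self m) h

/-- The graph-theoretic core: no graph has rays `r`, `ρ a b` with the following separation
pattern. -/
theorem core {C : Type} (hC : Order.succ ℵ₁ ≤ #C) (r : ℕ → V) (hr : Function.Injective r)
    (hadj : ∀ n, G.Adj (r n) (r (n + 1))) (ρ : C → C → ℕ → V) (X : C → Set V)
    (hX : ∀ c, (X c).Finite)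
    (h1 : ∀ a b, a ≠ b → ¬ (∃ n0, ∀ n ≥ n0, ρ a b n ∈ M G r (X a)) ∧
      ¬ (∃ n0, ∀ n ≥ n0, ρ a b n ∈ M G r (X b)))
    (hρ : ∀ a b, Function.Injective (ρ a b))
    (hρadj : ∀ a b n, G.Adj (ρ a b n) (ρ a b (n + 1)))
    (h2 : ∀ A : Set V, A.Finite → ∃ Φ : Set C, Φ.Finite ∧ ∀ a ∉ Φ, ∀ b ∉ Φ, a ≠ b →
      ∃ n0, ∀ n ≥ n0, ρ a b n ∈ M G r A) : False := by
  have hreg : (Order.succ ℵ₁ : Cardinal.{0}).IsRegular := isRegular_succ (aleph0_le_aleph 1)
  have hlt : (ℵ₀ : Cardinal.{0}) < Order.succ ℵ₁ := aleph0_lt_aleph_one.trans (Order.lt_succ _)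
  obtain ⟨S, -, hS, X0, hX0, hΔ⟩ := delta_finite hreg hlt X hX Set.univ (by simpa using hC)
  obtain ⟨Φ, hΦ, h3⟩ := h2 X0 hX0
  -- remove Φ
  have hS' : Order.succ ℵ₁ ≤ #(S \ Φ : Set C) := by
    by_contra hcon
    push Not at hcon
    have : #S < Order.succ ℵ₁ := by
      refine lt_of_le_of_lt (mk_le_mk_of_subset (s := S) (t := (S \ Φ) ∪ Φ) ?_) ?_
      · intro x hx
        by_cases hxΦ : x ∈ Φ
        · exact Or.inr hxΦ
        · exact Or.inl ⟨hx, hxΦ⟩
      · refine lt_of_le_of_lt (mk_union_le _ _) (add_lt_of_lt hreg.aleph0_le hcon ?_)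
        exact (hΦ.lt_aleph0).trans hlt
    exact absurd hS (not_le.2 this)
  -- the set mapping
  obtain ⟨a, ha, b, hb, hab, hab1, hab2⟩ := free_pair (S \ Φ) hS'
    (fun a => {b | b ∈ S ∧ b ≠ a ∧ ∃ v ∈ X a \ X0, v ∈ M G r X0 ∧ v ∉ M G r (X b)}) (by
      intro a ha
      have hcov : {b | b ∈ S ∧ b ≠ a ∧ ∃ v ∈ X a \ X0, v ∈ M G r X0 ∧ v ∉ M G r (X b)} ⊆
          ⋃ v ∈ X a, {b | b ∈ S ∧ v ∈ M G r X0 ∧ b ≠ a ∧ v ∉ M G r (X b)} := by
        rintro b ⟨hbS, hba, v, hv, hv1, hv2⟩
        simp only [Set.mem_iUnion]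
        exact ⟨v, hv.1, hbS, hv1, hba, hv2⟩
      refine Set.Countable.mono hcov ?_
      refine (hX a).countable.biUnion ?_
      intro v hv
      by_cases hvM : v ∈ M G r X0
      · obtain ⟨L, hL, hL2⟩ := countable_support hr hadj hX0 hvM
        have hcov2 : {b | b ∈ S ∧ v ∈ M G r X0 ∧ b ≠ a ∧ v ∉ M G r (X b)} ⊆
            ⋃ u ∈ L, {b | b ∈ S ∧ u ∈ X b \ X0} := by
          rintro b ⟨hbS, -, hba, hvb⟩
          simp only [Set.mem_iUnion]
          by_contra hcon
          push Not at hcon
          apply hvb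
          have h4 : X0 ∪ (X b \ X0) = X b := by
            rw [Set.union_diff_cancel]
            rw [← hΔ b hbS a ha.1 hba]
            exact Set.inter_subset_left
          rw [← h4]
          apply hL2
          rw [Set.disjoint_left]
          intro u hu huL
          exact hcon u huL ⟨hbS, hu⟩
        refine Set.Countable.mono hcov2 (hL.biUnion ?_)
        intro u hu
        refine Set.Subsingleton.countable ?_
        intro b hb c hc
        by_contra hbc
        have := hΔ b hb.1 c hc.1 hbc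
        apply hb.2.2
        rw [← this]
        exact ⟨hb.2.1, hc.2.1⟩
      · convert Set.countable_empty
        ext b
        simp [hvM])
  have haS := ha.1
  have hbS := hb.1
  -- key: every vertex of M X0 lies in M (X a) or M (X b)
  have hA : ∀ v ∈ X a \ X0, v ∈ M G r X0 → v ∈ M G r (X b) := by
    intro v hv hvM
    by_contra hcon
    exact hab2 ⟨hbS, hab.symm, v, hv, hvM, hcon⟩
  have hB : ∀ v ∈ X b \ X0, v ∈ M G r X0 → v ∈ M G r (X a) := by
    intro v hv hvM
    by_contra hcon
    exact hab1 ⟨haS, hab, v, hv, hvM, hcon⟩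
  have hint : X a ∩ X b = X0 := hΔ a haS b hbS hab
  -- a far vertex of r
  obtain ⟨na, hna⟩ := tail_avoid hr (hX a)
  obtain ⟨nb, hnb⟩ := tail_avoid hr (hX b)
  have hkey : ∀ v, v ∈ M G r X0 → v ∈ M G r (X a) ∨ v ∈ M G r (X b) := by
    intro v hv
    obtain ⟨n0, hn0⟩ := hv
    have hreach := hn0 (max n0 (max na nb)) (le_max_left _ _)
    set m := max n0 (max na nb) with hm
    have hma : na ≤ m := (le_max_left _ _).trans (le_max_right _ _)
    have hm0 : n0 ≤ m := le_max_left _ _
    -- induct along the chain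
    have : ∀ x, Relation.ReflTransGen (Stp G X0) x (r m) →
        (x ∈ M G r (X a) ∨ x ∈ M G r (X b)) := by
      intro x hx
      induction hx using Relation.ReflTransGen.head_induction_on with
      | refl =>
        left
        refine ⟨m, fun n hn => tail_reach hadj (fun k hk => hna k (hma.trans hk)) n hn⟩
      | @head x z hs hzr ih =>
        have hxM : x ∈ M G r X0 := by
          refine ⟨m, fun n hn => (Relation.ReflTransGen.head hs hzr).trans ?_⟩
          refine tail_reach hadj (fun k hk => ?_) n hn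
          intro hk0
          rw [← hint] at hk0
          exact hna k (hma.trans hk) hk0.1
        by_cases hxa : x ∈ X a
        · right
          exact hA x ⟨hxa, hs.2.1⟩ hxM
        by_cases hxb : x ∈ X b
        · left
          exact hB x ⟨hxb, hs.2.1⟩ hxM
        -- x avoids both
        rcases ih with ⟨k, hk⟩ | ⟨k, hk⟩
        · by_cases hza : z ∈ X a
          · right
            obtain ⟨l, hl⟩ := hA z ⟨hza, hs.2.2⟩ (by
              refine ⟨m, fun n hn => hzr.trans ?_⟩
              refine tail_reach hadj (fun k hk => ?_) n hn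
              intro hk0
              rw [← hint] at hk0
              exact hna k (hma.trans hk) hk0.1)
            have hzb : z ∉ X b := by
              intro hzb
              apply hs.2.2
              rw [← hint]
              exact ⟨hza, hzb⟩
            exact ⟨l, fun n hn => Relation.ReflTransGen.head ⟨hs.1, hxb, hzb⟩ (hl n hn)⟩
          · left
            exact ⟨k, fun n hn => Relation.ReflTransGen.head ⟨hs.1, hxa, hza⟩ (hk n hn)⟩
        · by_cases hzb : z ∈ X b
          · left
            obtain ⟨l, hl⟩ := hB z ⟨hzb, hs.2.2⟩ (by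
              refine ⟨m, fun n hn => hzr.trans ?_⟩
              refine tail_reach hadj (fun k hk => ?_) n hn
              intro hk0
              rw [← hint] at hk0
              exact hna k (hma.trans hk) hk0.1)
            have hza : z ∉ X a := by
              intro hza
              apply hs.2.2
              rw [← hint]
              exact ⟨hza, hzb⟩
            exact ⟨l, fun n hn => Relation.ReflTransGen.head ⟨hs.1, hxa, hza⟩ (hl n hn)⟩
          · right
            exact ⟨k, fun n hn => Relation.ReflTransGen.head ⟨hs.1, hxb, hzb⟩ (hk n hn)⟩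
    exact this v hreach
  -- conclude
  obtain ⟨n0, hn0⟩ := h3 a ha.2 b hb.2 hab
  have h4 := h1 a b hab
  -- the tail of ρ a b lies in one of the two
  obtain ⟨pa, hpa⟩ := tail_avoid (hρ a b) (hX a)
  obtain ⟨pb, hpb⟩ := tail_avoid (hρ a b) (hX b)
  set m := max n0 (max pa pb) with hm
  have hm0 : n0 ≤ m := le_max_left _ _
  have hma : pa ≤ m := (le_max_left _ _).trans (le_max_right _ _)
  have hmb : pb ≤ m := (le_max_right _ _).trans (le_max_right _ _)
  rcases hkey _ (hn0 m hm0) with ⟨k, hk⟩ | ⟨k, hk⟩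
  · apply h4.1
    refine ⟨m, fun n hn => ⟨k, fun l hl => ?_⟩⟩
    have := tail_reach (hρadj a b) (fun j hj => hpa j (hma.trans hj)) n hn
    exact (reach_symm this).trans (hk l hl)
  · apply h4.2
    refine ⟨m, fun n hn => ⟨k, fun l hl => ?_⟩⟩
    have := tail_reach (hρadj a b) (fun j hj => hpb j (hmb.trans hj)) n hn
    exact (reach_symm this).trans (hk l hl)

end Graph

end Pool.Agent.U491.Conn
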