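import Mathlib

/-!
# Connectoids and their end spaces, end spaces of graphs
-/

set_option autoImplicit false

open Set

universe u

namespace Pool.Agent.U491.Conn

/-- A connectoid on `S`, given by its family `fam` of finite sets (the finite connected sets). -/
structure Connectoid (S : Type u) where
  /-- the inducing family of finite sets -/
  fam : Set (Set S)
  finite_of_mem : ∀ F ∈ fam, F.Finite
  union_mem : ∀ F ∈ fam, ∀ F' ∈ fam, (F ∩ F').Nonempty → F ∪ F' ∈ fam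
  empty_mem : ∅ ∈ fam
  singleton_mem : ∀ s, {s} ∈ fam

namespace Connectoid

variable {S : Type u} (c : Connectoid S)

/-- `C` is connected: any two of its elements lie in a common member of the family that is
contained in `C`. -/
def IsConn (C : Set S) : Prop := ∀ x ∈ C, ∀ y ∈ C, ∃ F ∈ c.fam, F ⊆ C ∧ x ∈ F ∧ y ∈ F

/-- The components of `A`: its maximal connected subsets. -/
def comps (A : Set S) : Set (Set S) := {K | Maximal (fun C => C ⊆ A ∧ c.IsConn C) K}

/-- `N` is a necklace: it is connected and the union of finite connected sets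
`H 0, H 1, H 2, …` with `H i ∩ H j` nonempty iff `|i - j| ≤ 1`. -/
def IsNecklace (N : Set S) : Prop :=
  c.IsConn N ∧ ∃ H : ℕ → Set S, N = ⋃ n, H n ∧ (∀ n, (H n).Finite ∧ c.IsConn (H n)) ∧
    ∀ i j, (H i ∩ H j).Nonempty ↔ (i ≤ j + 1 ∧ j ≤ i + 1)

/-- `T` is the `X`-tail of `N`: the component of `N \ X` that contains all but finitely many
elements of `N`. -/
def IsTail (N X T : Set S) : Prop := T ∈ c.comps (N \ X) ∧ (N \ T).Finite

/-- The necklaces. -/
def Necklace : Type u := {N : Set S // c.IsNecklace N}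

variable {c}

lemma isConn_union {A B : Set S} (hA : c.IsConn A) (hB : c.IsConn B) (h : (A ∩ B).Nonempty) :
    c.IsConn (A ∪ B) := by
  obtain ⟨z, hzA, hzB⟩ := h
  have key : ∀ x ∈ A ∪ B, ∃ F ∈ c.fam, F ⊆ A ∪ B ∧ x ∈ F ∧ z ∈ F := by
    rintro x (hx | hx)
    · obtain ⟨F, hF, h1, h2, h3⟩ := hA x hx z hzA
      exact ⟨F, hF, h1.trans Set.subset_union_left, h2, h3⟩
    · obtain ⟨F, hF, h1, h2, h3⟩ := hB x hx z hzB
      exact ⟨F, hF, h1.trans Set.subset_union_right, h2, h3⟩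
  intro x hx y hy
  obtain ⟨F, hF, h1, h2, h3⟩ := key x hx
  obtain ⟨F', hF', h1', h2', h3'⟩ := key y hy
  exact ⟨F ∪ F', c.union_mem F hF F' hF' ⟨z, h3, h3'⟩, Set.union_subset h1 h1', Or.inl h2,
    Or.inr h2'⟩

lemma isConn_sUnion {Q : Set (Set S)} (h : ∀ C ∈ Q, c.IsConn C) {z : S} (hz : ∀ C ∈ Q, z ∈ C) :
    c.IsConn (⋃₀ Q) := by
  rintro x ⟨C, hC, hx⟩ y ⟨D, hD, hy⟩
  obtain ⟨F, hF, h1, h2, h3⟩ := h C hC x hx z (hz C hC)
  obtain ⟨F', hF', h1', h2', h3'⟩ := h D hD y hy z (hz D hD)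
  refine ⟨F ∪ F', c.union_mem F hF F' hF' ⟨z, h3, h3'⟩, ?_, Or.inl h2, Or.inr h2'⟩
  exact Set.union_subset (h1.trans (Set.subset_sUnion_of_mem hC))
    (h1'.trans (Set.subset_sUnion_of_mem hD))

lemma isConn_singleton (x : S) : c.IsConn {x} := by
  intro a ha b hb
  exact ⟨{x}, c.singleton_mem x, subset_rfl, ha, hb⟩

lemma isConn_of_mem {F : Set S} (hF : F ∈ c.fam) : c.IsConn F :=
  fun _ ha _ hb => ⟨F, hF, subset_rfl, ha, hb⟩

lemma isConn_iUnion_chain {H : ℕ → Set S} (hH : ∀ n, c.IsConn (H n))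
    (hi : ∀ n, (H n ∩ H (n + 1)).Nonempty) : c.IsConn (⋃ n, H n) := by
  have h1 : ∀ n, c.IsConn (⋃ k ∈ Finset.range (n + 1), H k) := by
    intro n
    induction n with
    | zero => simpa using hH 0
    | succ n ih =>
      rw [Finset.range_add_one, Finset.set_biUnion_insert]
      refine isConn_union (hH (n + 1)) ih ?_
      obtain ⟨z, hz1, hz2⟩ := hi n
      refine ⟨z, hz2, ?_⟩
      simp only [Set.mem_iUnion]
      exact ⟨n, by simp, hz1⟩
  obtain ⟨z, hz, -⟩ := hi 0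
  have h2 : (⋃ n, H n) = ⋃₀ (Set.range fun n => ⋃ k ∈ Finset.range (n + 1), H k) := by
    ext x
    simp only [Set.mem_iUnion, Set.mem_sUnion, Set.mem_range, exists_exists_eq_and,
      Finset.mem_range]
    constructor
    · rintro ⟨n, hn⟩
      exact ⟨n, n, by omega, hn⟩
    · rintro ⟨n, k, _, hk⟩
      exact ⟨k, hk⟩
  rw [h2]
  refine isConn_sUnion (z := z) ?_ ?_
  · rintro C ⟨n, rfl⟩
    exact h1 n
  · rintro C ⟨n, rfl⟩
    simp only [Set.mem_iUnion]
    exact ⟨0, by simp, hz⟩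

/-- every point of `A` lies in a component of `A` -/
lemma exists_comp {A : Set S} {x : S} (hx : x ∈ A) : ∃ K ∈ c.comps A, x ∈ K := by
  refine ⟨⋃₀ {C | C ⊆ A ∧ c.IsConn C ∧ x ∈ C}, ⟨⟨?_, ?_⟩, ?_⟩, ?_⟩
  · exact Set.sUnion_subset fun C hC => hC.1
  · exact isConn_sUnion (fun C hC => hC.2.1) (fun C hC => hC.2.2)
  · intro C hC hle
    refine Set.subset_sUnion_of_mem ⟨hC.1, hC.2, hle ?_⟩
    exact ⟨{x}, ⟨Set.singleton_subset_iff.2 hx, isConn_singleton x, rfl⟩, rfl⟩
  · exact ⟨{x}, ⟨Set.singleton_subset_iff.2 hx, isConn_singleton x, rfl⟩, rfl⟩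

lemma comp_sub {A K : Set S} (hK : K ∈ c.comps A) : K ⊆ A :=
  Maximal.prop (P := fun C => C ⊆ A ∧ c.IsConn C) hK |>.1

lemma comp_conn {A K : Set S} (hK : K ∈ c.comps A) : c.IsConn K :=
  Maximal.prop (P := fun C => C ⊆ A ∧ c.IsConn C) hK |>.2

lemma subset_comp {A K C : Set S} (hK : K ∈ c.comps A) (hC : c.IsConn C) (hCA : C ⊆ A)
    (h : (C ∩ K).Nonempty) : C ⊆ K := by
  have h1 := Maximal.le_of_ge (P := fun C => C ⊆ A ∧ c.IsConn C) hK (y := K ∪ C)
    ⟨Set.union_subset (comp_sub hK) hCA, isConn_union (comp_conn hK) hC (by rwa [Set.inter_comm])⟩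
    Set.subset_union_left
  exact fun x hx => h1 (Or.inr hx)

lemma comp_unique {A K K' : Set S} (hK : K ∈ c.comps A) (hK' : K' ∈ c.comps A)
    (h : (K ∩ K').Nonempty) : K = K' :=
  Set.Subset.antisymm (subset_comp hK' (comp_conn hK) (comp_sub hK) h)
    (subset_comp hK (comp_conn hK') (comp_sub hK') (by rwa [Set.inter_comm]))

lemma necklace_eventually {H : ℕ → Set S}
    (hH : ∀ i j, (H i ∩ H j).Nonempty ↔ (i ≤ j + 1 ∧ j ≤ i + 1)) {X : Set S} (hX : X.Finite) :
    ∃ n0, ∀ n ≥ n0, Disjoint (H n) X := by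
  have h1 : ∀ x : S, ∀ᶠ n in Filter.atTop, x ∉ H n := by
    intro x
    rw [Filter.eventually_atTop]
    by_cases h : ∃ m, x ∈ H m
    · obtain ⟨m, hm⟩ := h
      refine ⟨m + 2, fun n hn hxn => ?_⟩
      have := (hH n m).1 ⟨x, hxn, hm⟩
      omega
    · push Not at h
      exact ⟨0, fun n _ => h n⟩
  have h2 : ∀ᶠ n in Filter.atTop, ∀ x ∈ X, x ∉ H n :=
    (Filter.eventually_all_finite hX).2 fun x _ => h1 x
  rw [Filter.eventually_atTop] at h2
  obtain ⟨n0, hn0⟩ := h2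
  exact ⟨n0, fun n hn => Set.disjoint_right.2 fun x hx => hn0 n hn x hx⟩

lemma necklace_infinite {N : Set S} (hN : c.IsNecklace N) : N.Infinite := by
  obtain ⟨-, H, rfl, h1, h2⟩ := hN
  intro hfin
  obtain ⟨n0, hn0⟩ := necklace_eventually h2 hfin
  obtain ⟨z, hz, -⟩ := (h2 n0 n0).2 (by omega)
  exact Set.disjoint_left.1 (hn0 n0 le_rfl) hz (Set.mem_iUnion.2 ⟨n0, hz⟩)

lemma exists_tail {N : Set S} (hN : c.IsNecklace N) {X : Set S} (hX : X.Finite) :
    ∃ T, c.IsTail N X T := by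
  obtain ⟨-, H, rfl, h1, h2⟩ := hN
  obtain ⟨n0, hn0⟩ := necklace_eventually h2 hX
  have hT0 : c.IsConn (⋃ k, H (n0 + k)) :=
    isConn_iUnion_chain (fun k => (h1 _).2) (fun k => (h2 _ _).2 (by omega))
  have hsub : (⋃ k, H (n0 + k)) ⊆ (⋃ n, H n) \ X := by
    intro x hx
    obtain ⟨k, hk⟩ := Set.mem_iUnion.1 hx
    exact ⟨Set.mem_iUnion.2 ⟨_, hk⟩, Set.disjoint_left.1 (hn0 _ (by omega)) hk⟩
  obtain ⟨z, hz, -⟩ := (h2 n0 n0).2 (by omega)
  have hz' : z ∈ ⋃ k, H (n0 + k) := Set.mem_iUnion.2 ⟨0, hz⟩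
  obtain ⟨K, hK, hzK⟩ := exists_comp (c := c) (hsub hz')
  refine ⟨K, hK, ?_⟩
  have h3 := subset_comp hK hT0 hsub ⟨z, hz', hzK⟩
  refine Set.Finite.subset (s := ⋃ n ∈ Finset.range n0, H n) ?_ ?_
  · exact Set.Finite.biUnion (Finset.finite_toSet _) fun n _ => (h1 n).1
  · rintro x ⟨hx, hxK⟩
    obtain ⟨n, hn⟩ := Set.mem_iUnion.1 hx
    by_cases hnn : n < n0
    · simp only [Set.mem_iUnion]
      exact ⟨n, by simpa using hnn, hn⟩
    · exfalso
      apply hxK
      apply h3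
      exact Set.mem_iUnion.2 ⟨n - n0, by rwa [Nat.add_sub_cancel' (not_lt.1 hnn)]⟩

lemma tail_meet {N : Set S} (hN : c.IsNecklace N) {T T' : Set S}
    (h1 : (N \ T).Finite) (h2 : (N \ T').Finite) : (T ∩ T').Nonempty := by
  by_contra hcon
  rw [Set.not_nonempty_iff_eq_empty] at hcon
  apply necklace_infinite hN
  refine (h1.union h2).subset ?_
  intro x hx
  by_cases hxT : x ∈ T
  · right
    refine ⟨hx, fun hxT' => ?_⟩
    have : x ∈ T ∩ T' := ⟨hxT, hxT'⟩
    rw [hcon] at this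
    exact this
  · exact Or.inl ⟨hx, hxT⟩

lemma IsTail.subset {N X T : Set S} (h : c.IsTail N X T) : T ⊆ N :=
  (comp_sub h.1).trans (fun _ hx => hx.1)

lemma tail_unique {N : Set S} (hN : c.IsNecklace N) {X T T' : Set S} (hT : c.IsTail N X T)
    (hT' : c.IsTail N X T') : T = T' :=
  comp_unique hT.1 hT'.1 (tail_meet hN hT.2 hT'.2)

lemma tail_nonempty {N : Set S} (hN : c.IsNecklace N) {X T : Set S} (hT : c.IsTail N X T) :
    T.Nonempty := by
  obtain ⟨x, hx, -⟩ := tail_meet hN hT.2 hT.2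
  exact ⟨x, hx⟩

/-- every tail lies in a component -/
lemma tail_in_comp {N : Set S} (hN : c.IsNecklace N) {X T : Set S} (hT : c.IsTail N X T) :
    ∃ K ∈ c.comps Xᶜ, T ⊆ K := by
  obtain ⟨x, hx⟩ := tail_nonempty hN hT
  have hTX : T ⊆ Xᶜ := fun y hy => (comp_sub hT.1 hy).2
  obtain ⟨K, hK, hxK⟩ := exists_comp (c := c) (hTX hx)
  exact ⟨K, hK, subset_comp hK (comp_conn hT.1) hTX ⟨x, hx, hxK⟩⟩

variable (c)

/-- Two necklaces are equivalent if for every finite `X` their `X`-tails lie in a common component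
of `S \ X`. -/
def NEquiv (N N' : c.Necklace) : Prop :=
  ∀ X : Finset S, ∃ K ∈ c.comps (X : Set S)ᶜ, ∃ T T' : Set S,
    c.IsTail N.1 X T ∧ c.IsTail N'.1 X T' ∧ T ⊆ K ∧ T' ⊆ K

/-- Equivalence of necklaces is an equivalence relation. -/
def necklaceSetoid : Setoid c.Necklace where
  r := c.NEquiv
  iseqv := by
    refine ⟨?_, ?_, ?_⟩
    · intro N X
      obtain ⟨T, hT⟩ := exists_tail N.2 X.finite_toSet
      obtain ⟨K, hK, h⟩ := tail_in_comp N.2 hT
      exact ⟨K, hK, T, T, hT, hT, h, h⟩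
    · intro N N' h X
      obtain ⟨K, hK, T, T', h1, h2, h3, h4⟩ := h X
      exact ⟨K, hK, T', T, h2, h1, h4, h3⟩
    · intro N N' N'' h h' X
      obtain ⟨K, hK, T, T', h1, h2, h3, h4⟩ := h X
      obtain ⟨K', hK', U, U', g1, g2, g3, g4⟩ := h' X
      have hTU := tail_unique N'.2 h2 g1
      obtain ⟨x, hx⟩ := tail_nonempty N'.2 h2
      have hKK := comp_unique hK hK' ⟨x, h4 hx, g3 (hTU ▸ hx)⟩
      exact ⟨K, hK, T, U', h1, g2, h3, hKK ▸ g4⟩

/-- The ends of the connectoid: the equivalence classes of necklaces. -/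
def Ends : Type u := Quotient c.necklaceSetoid

/-- `K` is `K(X, ω)`: the component of `S \ X` that contains the `X`-tails of the necklaces
in `ω`. -/
def IsKOf (X : Finset S) (ω : c.Ends) (K : Set S) : Prop :=
  K ∈ c.comps (X : Set S)ᶜ ∧
    ∀ N : c.Necklace, Quotient.mk c.necklaceSetoid N = ω → ∀ T, c.IsTail N.1 X T → T ⊆ K

/-- The topology on the set of ends, generated by the sets `{ω : K(X, ω) = K}`, `X` finite,
`K` a component of `S \ X`. -/
instance : TopologicalSpace c.Ends :=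
  TopologicalSpace.generateFrom
    {U | ∃ (X : Finset S) (K : Set S), K ∈ c.comps (X : Set S)ᶜ ∧ U = {ω | c.IsKOf X ω K}}

end Connectoid

/-! ### End spaces of graphs -/

section GraphEnds

variable {V : Type u} (G : SimpleGraph V)

/-- A ray of `G`: a one-way infinite path. -/
structure Ray where
  /-- the vertices of the ray in order -/
  vert : ℕ → V
  inj : Function.Injective vert
  adj : ∀ n, G.Adj (vert n) (vert (n + 1))

variable {G}

/-- The ray `r` has a tail in the component `K` of `G - A`. -/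
def Ray.TailIn (r : Ray G) (A : Finset V)
    (K : (G.induce (A : Set V)ᶜ).ConnectedComponent) : Prop :=
  ∃ n0, ∀ n ≥ n0, ∃ h : r.vert n ∈ (A : Set V)ᶜ,
    (G.induce (A : Set V)ᶜ).connectedComponentMk ⟨r.vert n, h⟩ = K

lemma Ray.exists_tailIn (r : Ray G) (A : Finset V) : ∃ K, r.TailIn A K := by
  have h1 : (r.vert ⁻¹' (A : Set V)).Finite := A.finite_toSet.preimage r.inj.injOn
  obtain ⟨N, hN⟩ := h1.bddAbove
  have h2 : ∀ n ≥ N + 1, r.vert n ∈ (A : Set V)ᶜ := by
    intro n hn hnA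
    have := hN hnA
    omega
  refine ⟨(G.induce (A : Set V)ᶜ).connectedComponentMk ⟨r.vert (N + 1), h2 _ le_rfl⟩, N + 1, ?_⟩
  intro n hn
  refine ⟨h2 n hn, ?_⟩
  induction n, hn using Nat.le_induction with
  | base => rfl
  | succ n hn ih =>
    rw [← ih, SimpleGraph.ConnectedComponent.eq]
    refine SimpleGraph.Adj.reachable ?_
    simpa using (r.adj n).symm

lemma Ray.tailIn_unique {r : Ray G} {A : Finset V}
    {K K' : (G.induce (A : Set V)ᶜ).ConnectedComponent} (h : r.TailIn A K) (h' : r.TailIn A K') :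
    K = K' := by
  obtain ⟨n, hn⟩ := h
  obtain ⟨m, hm⟩ := h'
  obtain ⟨h1, h2⟩ := hn (max n m) (le_max_left _ _)
  obtain ⟨h3, h4⟩ := hm (max n m) (le_max_right _ _)
  rw [← h2, ← h4]

variable (G)

/-- Two rays are equivalent if for every finite `A` they have tails in a common component of
`G - A`. -/
def raySetoid : Setoid (Ray G) where
  r r s := ∀ A : Finset V, ∃ K : (G.induce (A : Set V)ᶜ).ConnectedComponent,
    r.TailIn A K ∧ s.TailIn A K
  iseqv := by
    refine ⟨?_, ?_, ?_⟩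
    · intro r A
      obtain ⟨K, hK⟩ := r.exists_tailIn A
      exact ⟨K, hK, hK⟩
    · intro r s h A
      obtain ⟨K, h1, h2⟩ := h A
      exact ⟨K, h2, h1⟩
    · intro r s t h h' A
      obtain ⟨K, h1, h2⟩ := h A
      obtain ⟨K', h3, h4⟩ := h' A
      have := Ray.tailIn_unique h2 h3
      subst this
      exact ⟨K, h1, h4⟩

/-- The ends of the graph `G`: the equivalence classes of rays. -/
def GEnds : Type u := Quotient (raySetoid G)

/-- `K` is `K(A, ω)`: the component of `G - A` in which all rays of `ω` have a tail. -/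
def IsGK (A : Finset V) (ω : GEnds G) (K : (G.induce (A : Set V)ᶜ).ConnectedComponent) : Prop :=
  ∀ r : Ray G, Quotient.mk (raySetoid G) r = ω → r.TailIn A K

/-- The topology on the set of ends, generated by the sets `{ω : K(A, ω) = K}`, `A` finite,
`K` a component of `G - A`. -/
instance : TopologicalSpace (GEnds G) :=
  TopologicalSpace.generateFrom
    {U | ∃ (A : Finset V) (K : (G.induce (A : Set V)ᶜ).ConnectedComponent),
      U = {ω | IsGK G A ω K}}

end GraphEnds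

end Pool.Agent.U491.Conn
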