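import Pool.Agent.U491.Conn.Core
import Pool.Agent.U491.Conn.Defs

set_option autoImplicit false

open Cardinal Set

universe u v

namespace Pool.Agent.U491.Conn

lemma gen_nhds {Ω : Type u} {I : Type v} (Q : Set (Set Ω)) (Same : I → Ω → Ω → Prop) (i0 : I)
    (sup : I → I → I) (h1 : ∀ i j ω ω', Same (sup i j) ω ω' → Same i ω ω' ∧ Same j ω ω')
    (h2 : ∀ U ∈ Q, ∀ ω ∈ U, ∃ i, ∀ ω', Same i ω ω' → ω' ∈ U)
    {O : Set Ω} (hO : TopologicalSpace.GenerateOpen Q O) :
    ∀ ω ∈ O, ∃ i, ∀ ω', Same i ω ω' → ω' ∈ O := by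
  induction hO with
  | basic s hs => exact h2 s hs
  | univ => exact fun _ _ => ⟨i0, fun _ _ => trivial⟩
  | inter s t _ _ ihs iht =>
    rintro ω ⟨hs, ht⟩
    obtain ⟨i, hi⟩ := ihs ω hs
    obtain ⟨j, hj⟩ := iht ω ht
    exact ⟨sup i j, fun ω' h => ⟨hi ω' (h1 i j ω ω' h).1, hj ω' (h1 i j ω ω' h).2⟩⟩
  | sUnion Q' _ ih =>
    rintro ω ⟨s, hs, hω⟩
    obtain ⟨i, hi⟩ := ih s hs ω hω
    exact ⟨i, fun ω' h => ⟨s, hs, hi ω' h⟩⟩

namespace Connectoid

variable {S : Type u} {c : Connectoid S}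

lemma isKOf_mk {X : Finset S} {N : c.Necklace} {K : Set S} :
    c.IsKOf X (Quotient.mk c.necklaceSetoid N) K ↔
      K ∈ c.comps (X : Set S)ᶜ ∧ ∃ T, c.IsTail N.1 X T ∧ T ⊆ K := by
  constructor
  · rintro ⟨h1, h2⟩
    obtain ⟨T, hT⟩ := exists_tail N.2 X.finite_toSet
    exact ⟨h1, T, hT, h2 N rfl T hT⟩
  · rintro ⟨h1, T, hT, hTK⟩
    refine ⟨h1, fun N' hN' T' hT' => ?_⟩
    obtain ⟨K0, hK0, U, U', g1, g2, g3, g4⟩ := Quotient.exact hN' X
    have e1 := tail_unique N'.2 hT' g1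
    have e2 := tail_unique N.2 hT g2
    obtain ⟨x, hx⟩ := tail_nonempty N.2 hT
    have e3 := comp_unique h1 hK0 ⟨x, hTK hx, g4 (e2 ▸ hx)⟩
    rw [e1, e3]
    exact g3

variable (c) in
/-- `K(X, ω) = K(X, ω')` -/
def Same (X : Finset S) (ω ω' : c.Ends) : Prop := ∃ K, c.IsKOf X ω K ∧ c.IsKOf X ω' K

lemma exists_K (X : Finset S) (ω : c.Ends) : ∃ K, c.IsKOf X ω K := by
  induction ω using Quotient.inductionOn with
  | h N =>
    obtain ⟨T, hT⟩ := exists_tail N.2 X.finite_toSet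
    obtain ⟨K, hK, h⟩ := tail_in_comp N.2 hT
    exact ⟨K, isKOf_mk.2 ⟨hK, T, hT, h⟩⟩

lemma K_unique {X : Finset S} {ω : c.Ends} {K K' : Set S} (h : c.IsKOf X ω K)
    (h' : c.IsKOf X ω K') : K = K' := by
  induction ω using Quotient.inductionOn with
  | h N =>
    obtain ⟨h1, T, hT, hTK⟩ := isKOf_mk.1 h
    obtain ⟨x, hx⟩ := tail_nonempty N.2 hT
    exact comp_unique h1 h'.1 ⟨x, hTK hx, h'.2 N rfl T hT hx⟩

lemma K_mono {X X' : Finset S} (hX : X ⊆ X') {ω : c.Ends} {K K' : Set S}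
    (h : c.IsKOf X ω K) (h' : c.IsKOf X' ω K') : K' ⊆ K := by
  induction ω using Quotient.inductionOn with
  | h N =>
    obtain ⟨h1, T, hT, hTK⟩ := isKOf_mk.1 h
    obtain ⟨h2, T', hT', hTK'⟩ := isKOf_mk.1 h'
    obtain ⟨x, hx, hx'⟩ := tail_meet N.2 hT.2 hT'.2
    refine subset_comp h1 (comp_conn h2) ?_ ⟨x, hTK' hx', hTK hx⟩
    refine (comp_sub h2).trans ?_
    exact Set.compl_subset_compl.2 (by exact_mod_cast hX)

lemma K_nonempty {X : Finset S} {ω : c.Ends} {K : Set S} (h : c.IsKOf X ω K) : K.Nonempty := by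
  induction ω using Quotient.inductionOn with
  | h N =>
    obtain ⟨h1, T, hT, hTK⟩ := isKOf_mk.1 h
    obtain ⟨x, hx⟩ := tail_nonempty N.2 hT
    exact ⟨x, hTK hx⟩

lemma Same.mono {X X' : Finset S} (hX : X ⊆ X') {ω ω' : c.Ends} (h : c.Same X' ω ω') :
    c.Same X ω ω' := by
  obtain ⟨K', h1, h2⟩ := h
  obtain ⟨K, hK⟩ := exists_K X ω
  obtain ⟨L, hL⟩ := exists_K X ω'
  obtain ⟨x, hx⟩ := K_nonempty h1
  have := comp_unique hK.1 hL.1 ⟨x, K_mono hX hK h1 hx, K_mono hX hL h2 hx⟩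
  subst this
  exact ⟨K, hK, hL⟩

lemma open_nhds {O : Set c.Ends} (hO : IsOpen O) {ω : c.Ends} (hω : ω ∈ O) :
    ∃ X : Finset S, ∀ ω', c.Same X ω ω' → ω' ∈ O := by
  classical
  refine gen_nhds _ c.Same ∅ (fun X Y => X ∪ Y) ?_ ?_ hO ω hω
  · intro X Y ω ω' h
    exact ⟨h.mono Finset.subset_union_left, h.mono Finset.subset_union_right⟩
  · rintro U ⟨X, K, -, rfl⟩ ω hω
    refine ⟨X, ?_⟩
    rintro ω' ⟨K', h1, h2⟩
    have := K_unique hω h1
    subst this
    exact h2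

/-- The connectoid generated by a family of finite sets. -/
def ofEdges (E : Set (Set S)) : Connectoid S where
  fam := {F | F.Finite ∧ ∀ x ∈ F, ∀ y ∈ F,
    Relation.ReflTransGen (fun u v => ∃ e ∈ E, e ⊆ F ∧ u ∈ e ∧ v ∈ e) x y}
  finite_of_mem := fun _ h => h.1
  union_mem := by
    rintro F ⟨hF, h1⟩ F' ⟨hF', h2⟩ ⟨z, hz, hz'⟩
    refine ⟨hF.union hF', ?_⟩
    have m1 : ∀ x y, Relation.ReflTransGen (fun u v => ∃ e ∈ E, e ⊆ F ∧ u ∈ e ∧ v ∈ e) x y →
        Relation.ReflTransGen (fun u v => ∃ e ∈ E, e ⊆ F ∪ F' ∧ u ∈ e ∧ v ∈ e) x y := by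
      intro x y h
      refine Relation.ReflTransGen.mono ?_ _ _ h
      rintro u v ⟨e, he, h3, h4⟩
      exact ⟨e, he, h3.trans Set.subset_union_left, h4⟩
    have m2 : ∀ x y, Relation.ReflTransGen (fun u v => ∃ e ∈ E, e ⊆ F' ∧ u ∈ e ∧ v ∈ e) x y →
        Relation.ReflTransGen (fun u v => ∃ e ∈ E, e ⊆ F ∪ F' ∧ u ∈ e ∧ v ∈ e) x y := by
      intro x y h
      refine Relation.ReflTransGen.mono ?_ _ _ h
      rintro u v ⟨e, he, h3, h4⟩
      exact ⟨e, he, h3.trans Set.subset_union_right, h4⟩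
    rintro x (hx | hx) y (hy | hy)
    · exact m1 _ _ (h1 x hx y hy)
    · exact (m1 _ _ (h1 x hx z hz)).trans (m2 _ _ (h2 z hz' y hy))
    · exact (m2 _ _ (h2 x hx z hz')).trans (m1 _ _ (h1 z hz y hy))
    · exact m2 _ _ (h2 x hx y hy)
  empty_mem := ⟨Set.finite_empty, fun x hx => absurd hx (Set.notMem_empty x)⟩
  singleton_mem := by
    refine fun s => ⟨Set.finite_singleton s, ?_⟩
    rintro x rfl y rfl
    exact Relation.ReflTransGen.refl

lemma edge_mem {E : Set (Set S)} {e : Set S} (he : e ∈ E) (hf : e.Finite) :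
    e ∈ (ofEdges E).fam :=
  ⟨hf, fun _ hx _ hy => Relation.ReflTransGen.single ⟨e, he, subset_rfl, hx, hy⟩⟩

end Connectoid

/-! ### the example -/

section Example

variable (C : Type)

/-- the hyperedges of the example -/
def edges : Set (Set (C ⊕ (C × C × ℕ))) :=
  {e | (∃ a b n, e = {Sum.inl a, Sum.inl b, Sum.inr (a, b, n)}) ∨
    (∃ a b n, e = {Sum.inr (a, b, n), Sum.inr (a, b, n + 1)})}

/-- the example: a connectoid on `C ⊕ (C × C × ℕ)` -/
def ex : Connectoid (C ⊕ (C × C × ℕ)) := Connectoid.ofEdges (edges C)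

variable {C}

/-- the private ray of the pair `(a, b)` -/
def RR (a b : C) : Set (C ⊕ (C × C × ℕ)) := Set.range fun n => Sum.inr (a, b, n)

lemma ex_edge1 (a b : C) (n : ℕ) :
    ({Sum.inl a, Sum.inl b, Sum.inr (a, b, n)} : Set (C ⊕ (C × C × ℕ))) ∈ (ex C).fam :=
  Connectoid.edge_mem (Or.inl ⟨a, b, n, rfl⟩) (by simp)

lemma ex_edge2 (a b : C) (n : ℕ) :
    ({Sum.inr (a, b, n), Sum.inr (a, b, n + 1)} : Set (C ⊕ (C × C × ℕ))) ∈ (ex C).fam :=
  Connectoid.edge_mem (Or.inr ⟨a, b, n, rfl⟩) (by simp)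

lemma RR_necklace (a b : C) : (ex C).IsNecklace (RR a b) := by
  have e : RR a b = ⋃ n, ({Sum.inr (a, b, n), Sum.inr (a, b, n + 1)} :
      Set (C ⊕ (C × C × ℕ))) := by
    ext x
    simp only [RR, Set.mem_range, Set.mem_iUnion, Set.mem_insert_iff, Set.mem_singleton_iff]
    constructor
    · rintro ⟨n, rfl⟩
      exact ⟨n, Or.inl rfl⟩
    · rintro ⟨n, rfl | rfl⟩
      · exact ⟨n, rfl⟩
      · exact ⟨n + 1, rfl⟩
  refine ⟨?_, _, e, ?_, ?_⟩
  · rw [e]
    refine Connectoid.isConn_iUnion_chain (fun n => Connectoid.isConn_of_mem (ex_edge2 a b n)) ?_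
    intro n
    exact ⟨Sum.inr (a, b, n + 1), by simp, by simp⟩
  · intro n
    exact ⟨by simp, Connectoid.isConn_of_mem (ex_edge2 a b n)⟩
  · intro i j
    constructor
    · rintro ⟨x, hx, hy⟩
      simp only [Set.mem_insert_iff, Set.mem_singleton_iff] at hx hy
      rcases hx with rfl | rfl <;> rcases hy with hy | hy <;>
        simp only [Sum.inr.injEq, Prod.mk.injEq, true_and] at hy <;> omega
    · rintro ⟨h1, h2⟩
      have : i = j ∨ i = j + 1 ∨ j = i + 1 := by omega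
      rcases this with rfl | rfl | rfl
      · exact ⟨Sum.inr (a, b, i), by simp, by simp⟩
      · exact ⟨Sum.inr (a, b, j + 1), by simp, by simp⟩
      · exact ⟨Sum.inr (a, b, i + 1), by simp, by simp⟩

/-- the central necklace of the sequence `s` -/
def CN (s : ℕ → C) : Set (C ⊕ (C × C × ℕ)) :=
  ⋃ n, {Sum.inl (s n), Sum.inl (s (n + 1)), Sum.inr (s n, s (n + 1), 0)}

lemma CN_necklace {s : ℕ → C} (hs : Function.Injective s) : (ex C).IsNecklace (CN s) := by
  refine ⟨?_, _, rfl, ?_, ?_⟩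
  · refine Connectoid.isConn_iUnion_chain (fun n => Connectoid.isConn_of_mem (ex_edge1 _ _ _)) ?_
    intro n
    exact ⟨Sum.inl (s (n + 1)), by simp, by simp⟩
  · intro n
    exact ⟨by simp, Connectoid.isConn_of_mem (ex_edge1 _ _ _)⟩
  · intro i j
    constructor
    · rintro ⟨x, hx, hy⟩
      simp only [Set.mem_insert_iff, Set.mem_singleton_iff] at hx hy
      rcases hx with rfl | rfl | rfl <;> rcases hy with hy | hy | hy <;>
        simp only [Sum.inl.injEq, Sum.inr.injEq, Prod.mk.injEq, reduceCtorEq] at hy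
      · have := hs hy; omega
      · have := hs hy; omega
      · have := hs hy; omega
      · have := hs hy; omega
      · have := hs hy.1; omega
    · rintro ⟨h1, h2⟩
      have : i = j ∨ i = j + 1 ∨ j = i + 1 := by omega
      rcases this with rfl | rfl | rfl
      · exact ⟨Sum.inl (s i), by simp, by simp⟩
      · exact ⟨Sum.inl (s (j + 1)), by simp, by simp⟩
      · exact ⟨Sum.inl (s (i + 1)), by simp, by simp⟩

/-- the end of the private ray of `(a, b)` -/
def pe (a b : C) : (ex C).Ends :=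
  Quotient.mk (ex C).necklaceSetoid ⟨RR a b, RR_necklace a b⟩

/-- the central end -/
def ce {s : ℕ → C} (hs : Function.Injective s) : (ex C).Ends :=
  Quotient.mk (ex C).necklaceSetoid ⟨CN s, CN_necklace hs⟩

lemma conn_RR {K : Set (C ⊕ (C × C × ℕ))} (hK : (ex C).IsConn K) {a b : C}
    (h : Sum.inl a ∉ K ∨ Sum.inl b ∉ K) (hm : (K ∩ RR a b).Nonempty) : K ⊆ RR a b := by
  obtain ⟨x, hxK, hx⟩ := hm
  intro y hy
  obtain ⟨F, hF, h1, h2, h3⟩ := hK x hxK y hy
  have h4 := hF.2 x h2 y h3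
  have hF' : Sum.inl a ∉ F ∨ Sum.inl b ∉ F := h.imp (fun h h' => h (h1 h')) (fun h h' => h (h1 h'))
  clear h3 hy h2
  induction h4 with
  | refl => exact hx
  | @tail y z _ hs ih =>
    obtain ⟨e, he, heF, hy, hz⟩ := hs
    obtain ⟨m, rfl⟩ := ih
    rcases he with ⟨a', b', n, rfl⟩ | ⟨a', b', n, rfl⟩
    · exfalso
      simp only [Set.mem_insert_iff, Set.mem_singleton_iff, reduceCtorEq, false_or,
        Sum.inr.injEq, Prod.mk.injEq] at hy
      obtain ⟨rfl, rfl, -⟩ := hy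
      rcases hF' with h | h
      · exact h (heF (by simp))
      · exact h (heF (by simp))
    · simp only [Set.mem_insert_iff, Set.mem_singleton_iff, Sum.inr.injEq,
        Prod.mk.injEq] at hy
      have : a = a' ∧ b = b' := by
        rcases hy with hy | hy
        · exact ⟨hy.1, hy.2.1⟩
        · exact ⟨hy.1, hy.2.1⟩
      obtain ⟨rfl, rfl⟩ := this
      rcases hz with rfl | hz
      · exact ⟨n, rfl⟩
      · rw [Set.mem_singleton_iff] at hz
        exact ⟨n + 1, hz.symm⟩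

/-- deleting `a` separates the central end from the private rays of `(a, b)` and `(b, a)` -/
lemma not_same {s : ℕ → C} (hs : Function.Injective s) {a b : C} {x : C} (hx : x = a ∨ x = b) :
    ¬ (ex C).Same {Sum.inl x} (ce hs) (pe a b) := by
  rintro ⟨K, h1, h2⟩
  obtain ⟨hK, T, hT, hTK⟩ := Connectoid.isKOf_mk.1 h1
  obtain ⟨-, T', hT', hTK'⟩ := Connectoid.isKOf_mk.1 h2
  have hxK : Sum.inl x ∉ K := by
    intro h
    have := Connectoid.comp_sub hK h
    simp at this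
  obtain ⟨y, hy⟩ := Connectoid.tail_nonempty (RR_necklace a b) hT'
  have hsub : K ⊆ RR a b := by
    refine conn_RR (Connectoid.comp_conn hK) ?_ ⟨y, hTK' hy, hT'.subset hy⟩
    rcases hx with rfl | rfl
    · exact Or.inl hxK
    · exact Or.inr hxK
  -- the tail of the central necklace contains points of `C`
  have hinf : (Set.range fun n => (Sum.inl (s n) : C ⊕ (C × C × ℕ))).Infinite :=
    Set.infinite_range_of_injective (Sum.inl_injective.comp hs)
  have : ∃ z ∈ Set.range fun n => (Sum.inl (s n) : C ⊕ (C × C × ℕ)), z ∈ T := by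
    by_contra hcon
    push Not at hcon
    apply hinf
    refine hT.2.subset ?_
    rintro z ⟨n, rfl⟩
    refine ⟨?_, hcon _ ⟨n, rfl⟩⟩
    exact Set.mem_iUnion.2 ⟨n, by simp⟩
  obtain ⟨z, ⟨n, rfl⟩, hz⟩ := this
  obtain ⟨m, hm⟩ := hsub (hTK hz)
  simp at hm

/-- no finite set separates the central end from infinitely many points in general position -/
lemma same_of_notMem {s : ℕ → C} (hs : Function.Injective s) (X : Finset (C ⊕ (C × C × ℕ)))
    {a b : C} (ha : Sum.inl a ∉ X) (hb : Sum.inl b ∉ X) :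
    (ex C).Same X (ce hs) (pe a b) := by
  obtain ⟨K, hK, haK⟩ := Connectoid.exists_comp (c := ex C) (A := (X : Set (C ⊕ (C × C × ℕ)))ᶜ)
    (x := Sum.inl a) (by simpa using ha)
  -- all points of `C` outside `X` lie in `K`
  have hfree : ∀ x y : C, ∃ n, Sum.inr (x, y, n) ∉ X := by
    intro x y
    have hinj : Function.Injective (fun n : ℕ => (Sum.inr (x, y, n) : C ⊕ (C × C × ℕ))) := by
      intro n m h
      simpa using h
    have h1 : ((fun n : ℕ => (Sum.inr (x, y, n) : C ⊕ (C × C × ℕ))) ⁻¹' (X : Set _)).Finite :=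
      X.finite_toSet.preimage hinj.injOn
    obtain ⟨n, hn⟩ := h1.exists_notMem
    exact ⟨n, by simpa using hn⟩
  have hC : ∀ x : C, Sum.inl x ∉ X → Sum.inl x ∈ K := by
    intro x hx
    obtain ⟨n, hn⟩ := hfree a x
    refine Connectoid.subset_comp hK (Connectoid.isConn_of_mem (ex_edge1 a x n)) ?_
      ⟨Sum.inl a, by simp, haK⟩ (by simp)
    rintro z hz
    simp only [Set.mem_insert_iff, Set.mem_singleton_iff] at hz
    rcases hz with rfl | rfl | rfl
    · simpa using ha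
    · simpa using hx
    · simpa using hn
  have hR : ∀ n, Sum.inr (a, b, n) ∉ X → Sum.inr (a, b, n) ∈ K := by
    intro n hn
    refine Connectoid.subset_comp hK (Connectoid.isConn_of_mem (ex_edge1 a b n)) ?_
      ⟨Sum.inl a, by simp, haK⟩ (by simp)
    rintro z hz
    simp only [Set.mem_insert_iff, Set.mem_singleton_iff] at hz
    rcases hz with rfl | rfl | rfl
    · simpa using ha
    · simpa using hb
    · simpa using hn
  refine ⟨K, Connectoid.isKOf_mk.2 ⟨hK, ?_⟩, Connectoid.isKOf_mk.2 ⟨hK, ?_⟩⟩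
  · obtain ⟨T, hT⟩ := Connectoid.exists_tail (CN_necklace hs) X.finite_toSet
    refine ⟨T, hT, ?_⟩
    have hinf : (Set.range fun n => (Sum.inl (s n) : C ⊕ (C × C × ℕ))).Infinite :=
      Set.infinite_range_of_injective (Sum.inl_injective.comp hs)
    have : ∃ z ∈ Set.range fun n => (Sum.inl (s n) : C ⊕ (C × C × ℕ)), z ∈ T := by
      by_contra hcon
      push Not at hcon
      apply hinf
      refine hT.2.subset ?_
      rintro z ⟨n, rfl⟩
      refine ⟨?_, hcon _ ⟨n, rfl⟩⟩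
      exact Set.mem_iUnion.2 ⟨n, by simp⟩
    obtain ⟨z, ⟨n, rfl⟩, hz⟩ := this
    have hTX : T ⊆ (X : Set (C ⊕ (C × C × ℕ)))ᶜ :=
      fun y hy => (Connectoid.comp_sub hT.1 hy).2
    refine Connectoid.subset_comp hK (Connectoid.comp_conn hT.1) hTX ⟨_, hz, hC _ ?_⟩
    have := hTX hz
    simpa using this
  · obtain ⟨T, hT⟩ := Connectoid.exists_tail (RR_necklace a b) X.finite_toSet
    refine ⟨T, hT, ?_⟩
    intro z hz
    obtain ⟨n, rfl⟩ := hT.subset hz
    apply hR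
    have := (Connectoid.comp_sub hT.1 hz).2
    simpa using this

end Example

/-! ### graphs -/

section Graph

variable {V : Type u} {G : SimpleGraph V}

lemma isGK_mk {A : Finset V} {r : Ray G} {K : (G.induce (A : Set V)ᶜ).ConnectedComponent} :
    IsGK G A (Quotient.mk (raySetoid G) r) K ↔ r.TailIn A K := by
  constructor
  · intro h
    exact h r rfl
  · intro h s hs
    obtain ⟨K', h1, h2⟩ := Quotient.exact hs A
    have := Ray.tailIn_unique h h2
    subst this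
    exact h1

variable (G) in
/-- `K(A, ω) = K(A, ω')` -/
def SameG (A : Finset V) (ω ω' : GEnds G) : Prop := ∃ K, IsGK G A ω K ∧ IsGK G A ω' K

lemma reach_of_stp {A : Set V} {x y : V} (h : Relation.ReflTransGen (Stp G A) x y)
    (hx : x ∈ Aᶜ) : ∃ hy : y ∈ Aᶜ, (G.induce Aᶜ).Reachable ⟨x, hx⟩ ⟨y, hy⟩ := by
  induction h with
  | refl => exact ⟨hx, SimpleGraph.Reachable.refl _⟩
  | tail _ hs ih =>
    obtain ⟨hz, h⟩ := ih
    refine ⟨hs.2.2, h.trans (SimpleGraph.Adj.reachable ?_)⟩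
    simpa using hs.1

lemma stp_of_reach {A : Set V} {x y : (Aᶜ : Set V)} (h : (G.induce Aᶜ).Reachable x y) :
    Relation.ReflTransGen (Stp G A) x.1 y.1 := by
  rw [SimpleGraph.reachable_iff_reflTransGen] at h
  refine Relation.ReflTransGen.lift (p := Stp G A) (Subtype.val) ?_ _ _ h
  intro u v huv
  exact ⟨by simpa using huv, u.2, v.2⟩

lemma tailIn_of_M {r s : Ray G} {A : Finset V} (h : ∃ n0, ∀ n ≥ n0, s.vert n ∈ M G r.vert A) :
    ∃ K, r.TailIn A K ∧ s.TailIn A K := by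
  obtain ⟨K, hK⟩ := r.exists_tailIn A
  obtain ⟨K', hK'⟩ := s.exists_tailIn A
  refine ⟨K, hK, ?_⟩
  have : K' = K := by
    obtain ⟨n0, hn0⟩ := h
    obtain ⟨n1, hn1⟩ := hK'
    obtain ⟨n2, hn2⟩ := hn0 (max n0 n1) (le_max_left _ _)
    obtain ⟨n3, hn3⟩ := hK
    obtain ⟨h1, h2⟩ := hn1 (max n0 n1) (le_max_right _ _)
    obtain ⟨h3, h4⟩ := hn3 (max n2 n3) (le_max_right _ _)
    obtain ⟨_, h5⟩ := reach_of_stp (hn2 (max n2 n3) (le_max_left _ _)) h1
    rw [← h2, ← h4, SimpleGraph.ConnectedComponent.eq]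
    exact h5
  exact this ▸ hK'

lemma M_of_tailIn {r s : Ray G} {A : Finset V} (h : ∃ K, r.TailIn A K ∧ s.TailIn A K) :
    ∃ n0, ∀ n ≥ n0, s.vert n ∈ M G r.vert A := by
  obtain ⟨K, ⟨n1, h1⟩, ⟨n2, h2⟩⟩ := h
  refine ⟨n2, fun n hn => ⟨n1, fun m hm => ?_⟩⟩
  obtain ⟨h3, h4⟩ := h1 m hm
  obtain ⟨h5, h6⟩ := h2 n hn
  rw [← h4, SimpleGraph.ConnectedComponent.eq] at h6
  exact stp_of_reach h6

lemma exists_GK (A : Finset V) (ω : GEnds G) : ∃ K, IsGK G A ω K := by
  induction ω using Quotient.inductionOn with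
  | h r =>
    obtain ⟨K, hK⟩ := r.exists_tailIn A
    exact ⟨K, isGK_mk.2 hK⟩

lemma GK_unique {A : Finset V} {ω : GEnds G} {K K' : (G.induce (A : Set V)ᶜ).ConnectedComponent}
    (h : IsGK G A ω K) (h' : IsGK G A ω K') : K = K' := by
  induction ω using Quotient.inductionOn with
  | h r => exact Ray.tailIn_unique (isGK_mk.1 h) (isGK_mk.1 h')

lemma sameG_mk {A : Finset V} {r s : Ray G} :
    SameG G A (Quotient.mk (raySetoid G) r) (Quotient.mk (raySetoid G) s) ↔
      ∃ n0, ∀ n ≥ n0, s.vert n ∈ M G r.vert A := by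
  constructor
  · rintro ⟨K, h1, h2⟩
    exact M_of_tailIn ⟨K, isGK_mk.1 h1, isGK_mk.1 h2⟩
  · intro h
    obtain ⟨K, h1, h2⟩ := tailIn_of_M h
    exact ⟨K, isGK_mk.2 h1, isGK_mk.2 h2⟩

lemma M_mono {r : ℕ → V} {A B : Set V} (h : A ⊆ B) : M G r B ⊆ M G r A := by
  rintro v ⟨n0, hn0⟩
  exact ⟨n0, fun n hn =>
    Relation.ReflTransGen.mono (fun _ _ hs => Stp.mono h hs) _ _ (hn0 n hn)⟩

lemma SameG.mono {A B : Finset V} (hAB : A ⊆ B) {ω ω' : GEnds G} (h : SameG G B ω ω') :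
    SameG G A ω ω' := by
  induction ω using Quotient.inductionOn with
  | h r =>
    induction ω' using Quotient.inductionOn with
    | h s =>
      rw [sameG_mk] at h ⊢
      obtain ⟨n0, hn0⟩ := h
      exact ⟨n0, fun n hn => M_mono (by exact_mod_cast hAB) (hn0 n hn)⟩

lemma open_nhdsG {O : Set (GEnds G)} (hO : IsOpen O) {ω : GEnds G} (hω : ω ∈ O) :
    ∃ A : Finset V, ∀ ω', SameG G A ω ω' → ω' ∈ O := by
  classical
  refine gen_nhds _ (SameG G) ∅ (fun X Y => X ∪ Y) ?_ ?_ hO ω hω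
  · intro X Y ω ω' h
    exact ⟨h.mono Finset.subset_union_left, h.mono Finset.subset_union_right⟩
  · rintro U ⟨X, K, rfl⟩ ω hω
    refine ⟨X, ?_⟩
    rintro ω' ⟨K', h1, h2⟩
    have := GK_unique hω h1
    subst this
    exact h2

end Graph

/-- The end space of the example does not embed into the end space of any graph. -/
theorem no_embedding {C : Type} (hC : Order.succ ℵ₁ ≤ #C) {V : Type u} (G : SimpleGraph V)
    (f : (ex C).Ends → GEnds G) : ¬ Topology.IsEmbedding f := by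
  intro hf
  have hCinf : Infinite C := by
    rw [Cardinal.infinite_iff]
    exact ((aleph0_le_aleph 1).trans (Order.le_succ _)).trans hC
  set s : ℕ → C := fun n => Infinite.natEmbedding C n
  have hs : Function.Injective s := (Infinite.natEmbedding C).injective
  obtain ⟨r, hr⟩ := Quotient.exists_rep (f (ce hs))
  choose ρ hρ using fun a b : C => Quotient.exists_rep (f (pe a b))
  -- separating sets
  have hsep : ∀ x : C, ∃ A : Finset V, ∀ a b : C, x = a ∨ x = b →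
      ¬ SameG G A (f (ce hs)) (f (pe a b)) := by
    intro x
    obtain ⟨K, hK⟩ := Connectoid.exists_K {Sum.inl x} (ce hs)
    have hO : IsOpen {ω | (ex C).IsKOf {Sum.inl x} ω K} :=
      TopologicalSpace.isOpen_generateFrom_of_mem ⟨{Sum.inl x}, K, hK.1, rfl⟩
    obtain ⟨U, hU, hUO⟩ := hf.isOpen_iff.1 hO
    have hmem : f (ce hs) ∈ U := by
      have : ce hs ∈ f ⁻¹' U := by
        rw [hUO]
        exact hK
      exact this
    obtain ⟨A, hA⟩ := open_nhdsG hU hmem
    refine ⟨A, fun a b hx h => ?_⟩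
    have h1 : pe a b ∈ f ⁻¹' U := hA _ h
    rw [hUO] at h1
    exact not_same hs hx ⟨K, hK, h1⟩
  choose X hX using hsep
  refine core (G := G) hC r.vert r.inj r.adj (fun a b => (ρ a b).vert) (fun x => (X x : Set V))
    (fun x => (X x).finite_toSet) ?_ (fun a b => (ρ a b).inj) (fun a b => (ρ a b).adj) ?_
  · intro a b _
    constructor
    · intro h
      refine hX a a b (Or.inl rfl) ?_
      rw [← hr, ← hρ]
      exact sameG_mk.2 h
    · intro h
      refine hX b a b (Or.inr rfl) ?_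
      rw [← hr, ← hρ]
      exact sameG_mk.2 h
  · intro A hA
    lift A to Finset V using hA
    obtain ⟨K, hK⟩ := exists_GK A (f (ce hs))
    have hO : IsOpen {ω | IsGK G A ω K} :=
      TopologicalSpace.isOpen_generateFrom_of_mem ⟨A, K, rfl⟩
    have hO' := hO.preimage hf.continuous
    obtain ⟨Y, hY⟩ := Connectoid.open_nhds hO' (ω := ce hs) hK
    refine ⟨{x | Sum.inl x ∈ Y}, ?_, ?_⟩
    · exact Y.finite_toSet.preimage Sum.inl_injective.injOn
    · intro a ha b hb _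
      have h1 := hY _ (same_of_notMem hs Y ha hb)
      have h2 : SameG G A (f (ce hs)) (f (pe a b)) := ⟨K, hK, h1⟩
      rw [← hr, ← hρ] at h2
      exact sameG_mk.1 h2

end Pool.Agent.U491.Conn
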